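import Mathlib
import Pool.Agent.H24.Plac

set_option autoImplicit false

namespace Pool.Agent.Results.MP_a663df_lc.RecOrder

open Pool.Agent.H24 Pool.Agent.H24.Plac FreeMonoid Nat.Partrec

section
variable {A : Type} [LinearOrder A]

/-- one step of the bicyclic action of two letters, other letters acting trivially -/
def st (a c x : A) (t : ℕ) : ℕ := if x = a then t + 1 else if x = c then t - 1 else t

theorem between {a c : A} (h : a < c) : (∃ X : Plactic A, X * g a * g c = X * g c * g a ∧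
    g a * g c * X = g c * g a * X ∧ X * g a * X = X * X * g a ∧ X * g c * X = g c * X * X) ↔
    ∃ b, a < b ∧ b < c := by
  constructor
  · rintro ⟨X, h1, h2, h3, h4⟩
    by_contra hn
    have hb : ∀ b, b ≤ a ∨ c ≤ b := fun b => by
      by_contra h'
      exact hn ⟨b, by simpa using h'⟩
    let φ : Plactic A →* Function.End ℕ :=
      PresentedMonoid.lift (M := Function.End ℕ) (st a c) (by
        rintro _ _ ⟨x, y, z, ⟨h1, h2, rfl, rfl⟩ | ⟨h1, h2, rfl, rfl⟩⟩ <;>
        · funext t
          change st a c _ (st a c _ (st a c _ t)) = st a c _ (st a c _ (st a c _ t))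
          unfold st
          rcases hb y with hy | hy <;> split_ifs <;> first | (exfalso; order) | omega)
    have m : ∀ x y t, φ (x * y) t = φ x (φ y t) := fun x y t => by rw [map_mul]; rfl
    have ea : ∀ t, φ (g a) t = t + 1 := fun t => by change st a c a t = _; simp [st]
    have ec : ∀ t, φ (g c) t = t - 1 := fun t => by change st a c c t = _; simp [st, h.ne']
    obtain ⟨i, j, hX⟩ : ∃ i j, ∀ t, φ X t = t - j + i := by
      obtain ⟨l, rfl⟩ := ex_w X
      clear h1 h2 h3 h4
      induction l with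
      | nil => exact ⟨0, 0, fun t => by rw [w_nil, map_one]; rfl⟩
      | cons x l ih =>
        obtain ⟨i, j, ih⟩ := ih
        have e : ∀ t, φ (w (x :: l)) t = st a c x (t - j + i) := fun t => by
          rw [w_cons, m, ih]; rfl
        simp only [e, st]
        split_ifs
        · exact ⟨i + 1, j, fun t => by omega⟩
        · exact ⟨i - 1, j + (1 - i), fun t => by omega⟩
        · exact ⟨i, j, fun t => rfl⟩
    have a1 := congrArg (fun x => φ x 0) h1
    have a2 := congrArg (fun x => φ x 0) h2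
    have a3 := congrArg (fun x => φ x 0) h3
    have a4 := congrArg (fun x => φ x 0) h4
    simp only [m, ea, ec, hX] at a1 a2 a3 a4
    omega
  · rintro ⟨b, h1, h2⟩
    exact ⟨g b, PresentedMonoid.mk_eq_mk_of_rel (rels := Knuth A)
        ⟨a, b, c, Or.inr ⟨h1, h2.le, rfl, rfl⟩⟩,
      PresentedMonoid.mk_eq_mk_of_rel (rels := Knuth A) ⟨a, b, c, Or.inl ⟨h1.le, h2, rfl, rfl⟩⟩,
      PresentedMonoid.mk_eq_mk_of_rel (rels := Knuth A) ⟨a, b, b, Or.inr ⟨h1, le_rfl, rfl, rfl⟩⟩,
      PresentedMonoid.mk_eq_mk_of_rel (rels := Knuth A) ⟨b, b, c, Or.inl ⟨le_rfl, h2, rfl, rfl⟩⟩⟩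

theorem sys {a c : A} (h : a < c) : (∃ σ : ℕ → Plactic A, ∀ e ∈
    [([Sum.inl 0, .inr a, .inr c], [Sum.inl 0, .inr c, .inr a]),
      ([.inr a, .inr c, .inl 0], [.inr c, .inr a, .inl 0]),
      ([.inl 0, .inr a, .inl 0], [.inl 0, .inl 0, .inr a]),
      ([.inl 0, .inr c, .inl 0], [.inr c, .inl 0, .inl 0])], eqn g e σ) ↔ ∃ b, a < b ∧ b < c := by
  rw [← between h]
  simp only [List.forall_mem_cons, eqn, List.map_cons, List.map_nil, List.prod_cons, List.prod_nil,
    Sum.elim_inl, Sum.elim_inr, mul_one, mul_assoc, List.not_mem_nil, false_imp_iff, implies_true,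
    and_true]
  exact ⟨fun ⟨σ, h⟩ => ⟨σ 0, h⟩, fun ⟨X, h⟩ => ⟨fun _ => X, h⟩⟩

end

/-- position of a code inside its block -/
def rk (x : ℕ) : ℕ := if x.unpair.2 = 0 then 0 else if x.unpair.2 = 1 then 2 else
  if (Code.evaln x.unpair.2 (Denumerable.ofNat Code x.unpair.1) 0).isSome then 1 else 3

theorem rk_prim : Primrec rk := by
  have h2 : Primrec fun x : ℕ => x.unpair.2 := Primrec.snd.comp Primrec.unpair
  exact Primrec.ite (Primrec.eq.comp h2 (Primrec.const 0)) (Primrec.const 0) <|
    Primrec.ite (Primrec.eq.comp h2 (Primrec.const 1)) (Primrec.const 2) <|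
    Primrec.ite (Primrec.eq.comp (Primrec.option_isSome.comp (Code.primrec_evaln.comp
      ((h2.pair ((Primrec.ofNat Code).comp (Primrec.fst.comp Primrec.unpair))).pair
        (Primrec.const 0)))) (Primrec.const true)) (Primrec.const 1) (Primrec.const 3)

/-- There is a recursive total order on `ℕ` for which the Diophantine problem of the plactic
monoid is undecidable. -/
theorem result : ∃ o : LinearOrder ℕ, (ComputablePred fun p : ℕ × ℕ => o.lt p.1 p.2) ∧
    ¬ ComputablePred fun S : List (List (ℕ ⊕ ℕ) × List (ℕ ⊕ ℕ)) =>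
      ∃ σ : ℕ → @Plactic ℕ o, ∀ e ∈ S, eqn (PresentedMonoid.of (@Knuth ℕ o)) e σ := by
  let key : ℕ → ℕ ×ₗ ℕ := fun x => toLex (4 * x.unpair.1 + rk x, x)
  have hk : Function.Injective key := fun x y h => (Prod.ext_iff.1 (toLex.injective h)).2
  have lt : ∀ x y, (LinearOrder.lift' key hk).lt x y ↔
      4 * x.unpair.1 + rk x < 4 * y.unpair.1 + rk y ∨
        4 * x.unpair.1 + rk x = 4 * y.unpair.1 + rk y ∧ x < y := fun x y =>
    Prod.Lex.toLex_lt_toLex
  refine ⟨LinearOrder.lift' key hk, ?_, ?_⟩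
  · have h : Primrec fun x : ℕ => 4 * x.unpair.1 + rk x := Primrec.nat_add.comp
      (Primrec.nat_mul.comp (Primrec.const 4) (Primrec.fst.comp Primrec.unpair)) rk_prim
    simp only [lt]
    exact ((Primrec.nat_lt.comp (h.comp Primrec.fst) (h.comp Primrec.snd)).or
      ((Primrec.eq.comp (h.comp Primrec.fst) (h.comp Primrec.snd)).and
        (Primrec.nat_lt.comp Primrec.fst Primrec.snd))).computablePred
  have hK : ¬ ComputablePred fun m => (Code.eval (Denumerable.ofNat Code m) 0).Dom := fun h => by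
    apply ComputablePred.halting_problem 0
    obtain ⟨f, hf, e⟩ := ComputablePred.computable_iff.1 h
    refine ComputablePred.computable_iff.2 ⟨fun c => f (Encodable.encode c),
      hf.comp Computable.encode, funext fun c => ?_⟩
    simpa using congrFun e (Encodable.encode c)
  have pa : ∀ k, Primrec fun n : ℕ => (Sum.inr (n.pair k) : ℕ ⊕ ℕ) := fun k =>
    Primrec.sumInr.comp (Primrec₂.natPair.comp Primrec.id (Primrec.const k))
  have p0 : Primrec fun _ : ℕ => (Sum.inl 0 : ℕ ⊕ ℕ) := Primrec.const _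
  have l3 : ∀ {a b c : ℕ → ℕ ⊕ ℕ}, Primrec a → Primrec b → Primrec c →
      Primrec fun n => [a n, b n, c n] := fun a b c => Primrec.list_cons.comp a
    (Primrec.list_cons.comp b (Primrec.list_cons.comp c (Primrec.const [])))
  refine H10.not_comp_of_red hK (fun n =>
    [([Sum.inl 0, .inr (n.pair 0), .inr (n.pair 1)], [Sum.inl 0, .inr (n.pair 1), .inr (n.pair 0)]),
      ([.inr (n.pair 0), .inr (n.pair 1), .inl 0], [.inr (n.pair 1), .inr (n.pair 0), .inl 0]),
      ([.inl 0, .inr (n.pair 0), .inl 0], [.inl 0, .inl 0, .inr (n.pair 0)]),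
      ([.inl 0, .inr (n.pair 1), .inl 0], [.inr (n.pair 1), .inl 0, .inl 0])])
    (Primrec.list_cons.comp ((l3 p0 (pa 0) (pa 1)).pair (l3 p0 (pa 1) (pa 0))) <|
      Primrec.list_cons.comp ((l3 (pa 0) (pa 1) p0).pair (l3 (pa 1) (pa 0) p0)) <|
      Primrec.list_cons.comp ((l3 p0 (pa 0) p0).pair (l3 p0 p0 (pa 0))) <|
      Primrec.list_cons.comp ((l3 p0 (pa 1) p0).pair (l3 (pa 1) p0 p0))
        (Primrec.const [])).to_comp fun n => ?_
  refine Iff.trans ?_ (@sys ℕ (LinearOrder.lift' key hk) _ _ ((lt _ _).2 (by simp [rk]))).symm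
  simp only [lt]
  constructor
  · intro h
    obtain ⟨k, hk⟩ := Code.evaln_complete.1 (Part.get_mem h)
    refine ⟨n.pair (k + 2), ?_⟩
    simp [rk, Option.isSome_iff_exists.2 ⟨_, Code.evaln_mono (Nat.le_add_right k 2) hk⟩]
  · rintro ⟨b, h1, h2⟩
    have e0 : rk (n.pair 0) = 0 := by simp [rk]
    have e1 : rk (n.pair 1) = 2 := by simp [rk]
    have e2 := Nat.pair_unpair b
    simp only [Nat.unpair_pair, e0, e1] at h1 h2
    unfold rk at h1 h2
    split_ifs at h1 h2 with a1 a2 a3
    · have : b.unpair.1 = n := by omega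
      rw [a1, this] at e2
      omega
    · have : b.unpair.1 = n := by omega
      rw [a2, this] at e2
      omega
    · obtain ⟨x, hx⟩ := Option.isSome_iff_exists.1 a3
      rw [show b.unpair.1 = n by omega] at hx
      exact Part.dom_iff_mem.2 ⟨x, Code.evaln_sound hx⟩
    · omega

end Pool.Agent.Results.MP_a663df_lc.RecOrder
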